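import Pool.Agent.H37.SW.Num

/-! It is undecidable whether the sandwich problem of the class of finite `F`-free graphs is the
constraint satisfaction problem of some (finite or infinite) 2-edge-coloured graph. -/

set_option autoImplicit false

namespace Pool.Agent.Results.MP_451b27_lc.SandwichCSPUndecidable

open Primrec Function Pool.Agent.H.MP_451b27_lc Pool.Agent.Lib.helper21.While
  Pool.Agent.Lib.helper21.Mach Pool.Agent.H37.SW

/-- A 2-edge-coloured graph on the vertex set `V`: two simple graphs without common edges. -/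
structure ECG (V : Type) where
  blue : SimpleGraph V
  red : SimpleGraph V
  disj : ∀ u v, blue.Adj u v → ¬red.Adj u v

/-- There is a homomorphism from `G` to `H`. -/
def Hom {V W : Type} (G : ECG V) (H : ECG W) : Prop :=
  ∃ f : V → W, (∀ u v, G.blue.Adj u v → H.blue.Adj (f u) (f v)) ∧
    ∀ u v, G.red.Adj u v → H.red.Adj (f u) (f v)

/-- `E` has no induced subgraph isomorphic to a member of the list `F`. -/
def Free {V : Type} (F : List Code) (E : SimpleGraph V) : Prop :=
  ∀ c ∈ F, IsEmpty (graph c ↪g E)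

/-- `G` is a yes-instance of the sandwich problem of the class of finite `F`-free graphs. -/
def Sandwich {V : Type} (F : List Code) (G : ECG V) : Prop :=
  ∃ E : SimpleGraph V, (∀ u v, G.blue.Adj u v → E.Adj u v) ∧ (∀ u v, G.red.Adj u v → ¬E.Adj u v) ∧
    Free F E

/-- The sandwich problem of the class of finite `F`-free graphs is a CSP. -/
def IsCSP (F : List Code) : Prop :=
  ∃ (W : Type) (H : ECG W), ∀ (V : Type) [Finite V] (G : ECG V), Sandwich F G ↔ Hom G H

theorem code_of {k : ℕ} (E : SimpleGraph (Fin k)) :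
    ∃ p : ℕ × ℕ → Bool, (graph (k, (prs k).filter p) : SimpleGraph (Fin k)) = E := by
  classical
  refine ⟨fun x => decide (∃ u v : Fin k, E.Adj u v ∧ x = (u.val, v.val)), ?_⟩
  ext u v
  rw [Pool.Agent.H37.SW.graph, SimpleGraph.fromRel_adj]
  have key : ∀ u v : Fin k, ((u.val, v.val) ∈ (prs k).filter
      fun x => decide (∃ u v : Fin k, E.Adj u v ∧ x = (u.val, v.val))) ↔ E.Adj u v := by
    intro u v
    rw [List.mem_filter, mem_prs, decide_eq_true_eq]
    constructor
    · rintro ⟨-, u', v', h, h'⟩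
      obtain ⟨h1, h2⟩ := Prod.mk.inj h'
      rw [Fin.ext h1, Fin.ext h2]
      exact h
    · intro h
      exact ⟨⟨u.2, v.2⟩, u, v, h, rfl⟩
  constructor
  · rintro ⟨-, h | h⟩
    · exact (key u v).1 h
    · exact ((key v u).1 h).symm
  · intro h
    exact ⟨h.ne, Or.inl ((key u v).2 h)⟩

section

variable {Q : Type} {K m : ℕ} (en : Ty Q K ≃ Fin m) (M : CM Q) (ρ : Q → Fin K) (q0 : Q)
  (r0 : Fin K)

open Classical in
/-- the fixed part of the list of forbidden graphs -/
noncomputable def L0 : List Code :=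
  (codes ((2 * m + 11) * (1 + m * (2 * m + 3)))).filter fun c =>
    decide (¬Good0 en M ρ q0 r0 (graph c))

open Classical in
/-- the list of forbidden graphs -/
noncomputable def FF (n : ℕ) : List Code :=
  L0 en M ρ q0 r0 ++ (codes ((n + 5) * (1 + m * (2 * m + 3)))).filter fun c =>
    decide (BadI en c r0 n)

theorem primrec_FF : Primrec (FF en M ρ q0 r0) := by
  classical
  have h := filter_pr (f := fun n : ℕ => codes ((n + 5) * (1 + m * (2 * m + 3))))
    (p := fun n c => BadI en c r0 n)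
    (primrec_codes.comp (Primrec.nat_mul.comp (Primrec.nat_add.comp Primrec.id (Primrec.const 5))
      (Primrec.const _))) badI_pr
  refine (Primrec.list_append.comp (Primrec.const (L0 en M ρ q0 r0)) h).of_eq fun n => ?_
  rw [FF]

variable {en M ρ q0 r0}

theorem free_iff {V : Type} {n : ℕ} {E : SimpleGraph V} :
    Free (FF en M ρ q0 r0 n) E ↔ Good0 en M ρ q0 r0 E ∧ GoodI en r0 n E := by
  classical
  constructor
  · intro H
    constructor
    · refine Good0.loc fun k hk f hf => by_contra fun hb => ?_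
      obtain ⟨p, hp⟩ := code_of (E.comap f)
      refine (H (k, (prs k).filter p) ?_).false
        (⟨⟨f, hf⟩, fun {u v} => ?_⟩ : graph (k, (prs k).filter p) ↪g E)
      · refine List.mem_append_left _ (List.mem_filter.2 ⟨mem_codes hk p, ?_⟩)
        rw [decide_eq_true_eq]
        exact fun h => hb (hp ▸ h)
      · rw [hp]; rfl
    · refine GoodI.loc fun k hk f hf => by_contra fun hb => ?_
      obtain ⟨p, hp⟩ := code_of (E.comap f)
      refine (H (k, (prs k).filter p) ?_).false
        (⟨⟨f, hf⟩, fun {u v} => ?_⟩ : graph (k, (prs k).filter p) ↪g E)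
      · refine List.mem_append_right _ (List.mem_filter.2 ⟨mem_codes hk p, ?_⟩)
        rw [decide_eq_true_eq, badI_iff]
        exact fun h => hb (hp ▸ h)
      · rw [hp]; rfl
  · rintro ⟨h1, h2⟩ c hc
    refine ⟨fun φ => ?_⟩
    rcases List.mem_append.1 hc with hc | hc
    · have := (List.mem_filter.1 hc).2
      rw [decide_eq_true_eq] at this
      exact this (h1.pull (g := φ) fun u v => φ.map_rel_iff.symm)
    · have := (List.mem_filter.1 hc).2
      rw [decide_eq_true_eq, badI_iff] at this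
      exact this (h2.pull (g := φ) fun u v => φ.map_rel_iff.symm)

/-- the 2-edge-coloured graph of a graph: edges blue, non-edges red -/
def full {V : Type} (E : SimpleGraph V) : ECG V := ⟨E, Eᶜ, fun _ _ h h' => h'.2 h⟩

theorem isCSP_of_not_halts {n : ℕ} (hρ : ∀ q, (ρ q).val = M.reg q) (h0 : r0.val = 0)
    (hn : ¬Halts (M.step 0) (q0, init n)) : IsCSP (FF en M ρ q0 r0 n) := by
  obtain ⟨W, U, h1, h2, h3⟩ := universal (en := en) hρ h0 hn
  refine ⟨W, full U, fun V _ G => ⟨?_, ?_⟩⟩
  · rintro ⟨E, hb, hr, hE⟩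
    rw [free_iff] at hE
    obtain ⟨k, ⟨e⟩⟩ := Finite.exists_equiv_fin V
    obtain ⟨f, hf, hf'⟩ := h3 k (E.comap e.symm) (hE.1.pull (g := e.symm) fun _ _ => Iff.rfl)
      (hE.2.pull (g := e.symm) fun _ _ => Iff.rfl)
    have hf2 : ∀ u v, E.Adj u v ↔ U.Adj (f (e u)) (f (e v)) := fun u v => by
      rw [← hf']
      simp
    refine ⟨fun v => f (e v), fun u v h => (hf2 u v).1 (hb u v h), fun u v h => ?_⟩
    refine ⟨fun h' => h.ne (e.injective (hf h')), fun h' => hr u v h ((hf2 u v).2 h')⟩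
  · rintro ⟨g, hb, hr⟩
    refine ⟨U.comap g, fun u v h => hb u v h, fun u v h => (hr u v h).2, free_iff.2 ⟨?_, ?_⟩⟩
    · exact h1.pull (g := g) fun _ _ => Iff.rfl
    · exact h2.pull (g := g) fun _ _ => Iff.rfl

theorem not_isCSP_of_halts [Finite Q] {n : ℕ} (hρ : ∀ q, (ρ q).val = M.reg q) (h0 : r0.val = 0)
    (hn : Halts (M.step 0) (q0, init n)) : ¬IsCSP (FF en M ρ q0 r0 n) := by
  rintro ⟨W, H, hH⟩
  obtain ⟨k1, k2, E1, E2, a1, a2, b1, b2, h⟩ := no_jep (en := en) hρ h0 hn
  obtain ⟨f1, f1b, f1r⟩ := (hH _ (full E1)).1 ⟨E1, fun _ _ h => h, fun _ _ h => h.2,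
    free_iff.2 ⟨a1, a2⟩⟩
  obtain ⟨f2, f2b, f2r⟩ := (hH _ (full E2)).1 ⟨E2, fun _ _ h => h, fun _ _ h => h.2,
    free_iff.2 ⟨b1, b2⟩⟩
  let G : ECG (Fin k1 ⊕ Fin k2) :=
    { blue := SimpleGraph.sum E1 E2
      red := SimpleGraph.sum E1ᶜ E2ᶜ
      disj := by
        rintro (u | u) (v | v) h h'
        · rw [SimpleGraph.sum_adj_inl] at h h'
          exact h'.2 h
        · simp at h
        · simp at h
        · rw [SimpleGraph.sum_adj_inr] at h h'
          exact h'.2 h }
  obtain ⟨E, hb, hr, hE⟩ := (hH _ G).2 ⟨Sum.elim f1 f2, by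
    rintro (u | u) (v | v) h
    · exact f1b _ _ (SimpleGraph.sum_adj_inl.1 h)
    · simp [G] at h
    · simp [G] at h
    · exact f2b _ _ (SimpleGraph.sum_adj_inr.1 h), by
    rintro (u | u) (v | v) h
    · exact f1r _ _ (SimpleGraph.sum_adj_inl.1 h)
    · simp [G] at h
    · simp [G] at h
    · exact f2r _ _ (SimpleGraph.sum_adj_inr.1 h)⟩
  rw [free_iff] at hE
  refine h _ E (fun a => .inl a) (fun a => .inr a) ?_ ?_ hE.1 hE.2
  · intro u v
    refine ⟨fun h => hb _ _ (SimpleGraph.sum_adj_inl.2 h), fun h' => by_contra fun h => ?_⟩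
    refine hr _ _ (SimpleGraph.sum_adj_inl.2 ⟨?_, h⟩) h'
    rintro rfl
    exact h'.ne rfl
  · intro u v
    refine ⟨fun h => hb _ _ (SimpleGraph.sum_adj_inr.2 h), fun h' => by_contra fun h => ?_⟩
    refine hr _ _ (SimpleGraph.sum_adj_inr.2 ⟨?_, h⟩) h'
    rintro rfl
    exact h'.ne rfl

end

/-- It is undecidable whether the sandwich problem of `F`-free graphs is a CSP. -/
theorem result : ¬ComputablePred IsCSP := by
  intro h
  obtain ⟨Q, _, M, q0, hM⟩ := Pool.Agent.Lib.helper21.Queue.exists_cm0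
  apply hM
  cases nonempty_fintype Q
  let K := Finset.univ.sup M.reg + 1
  let ρ : Q → Fin K := fun q => ⟨M.reg q, Nat.lt_succ_of_le (Finset.le_sup (Finset.mem_univ q))⟩
  let r0 : Fin K := ⟨0, Nat.succ_pos _⟩
  have : Finite (ZMod 3) := inferInstanceAs (Finite (Fin 3))
  obtain ⟨m, ⟨en⟩⟩ := Finite.exists_equiv_fin (Ty Q K)
  have key : ∀ n, IsCSP (FF en M ρ q0 r0 n) ↔ ¬Halts (M.step 0) (q0, init n) := fun n =>
    ⟨fun h' h'' => not_isCSP_of_halts (fun _ => rfl) rfl h'' h',
      fun h' => isCSP_of_not_halts (fun _ => rfl) rfl h'⟩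
  have h2 : ComputablePred fun n => ¬Halts (M.step 0) (q0, init n) :=
    ComputablePred.computable_of_manyOneReducible
      ⟨FF en M ρ q0 r0, (primrec_FF en M ρ q0 r0).to_comp, fun n => (key n).symm⟩ h
  exact (h2.not).of_eq fun n => by rw [not_not]

end Pool.Agent.Results.MP_451b27_lc.SandwichCSPUndecidable
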